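import Pool.Agent.H80.LD.Targets
import Pool.Agent.H38.DPC.CONV

/-!
# MP_47c37b: near off-diagonal points the moments are smooth functions (row LOC)
-/

set_option autoImplicit false

open MeasureTheory SchwartzMap Filter Topology
open scoped ENNReal ContDiff InnerProductSpace

namespace Pool.Agent.H70.LD

open Pool.Agent.H80.LD
open Pool.Agent.H43.DPC (V S SD moment trans rot IsMAO Diag T_CON)
open Pool.Agent.H43.DPCS (TransInv)

noncomputable section

/-- an approximate identity -/
theorem approx_id (d : ℕ) (r : ℝ) (hr : 0 < r) : ∃ ρ : ℕ → S d, (∀ k x, 0 ≤ ρ k x) ∧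
    (∀ k, ∫ x, ρ k x = 1) ∧ (∀ k x, ρ k x ≠ 0 → ‖x‖ ≤ 1 / (k + 1 : ℝ)) ∧
    ∀ k x, ρ k x ≠ 0 → ‖x‖ ≤ r := by
  have hR : ∀ k : ℕ, 0 < min r (1 / (k + 1 : ℝ)) := fun k => lt_min hr (by positivity)
  let b : ∀ _ : ℕ, ContDiffBump (0 : V d) := fun k =>
    ⟨min r (1 / (k + 1 : ℝ)) / 2, min r (1 / (k + 1 : ℝ)), by have := hR k; positivity,
      by have := hR k; linarith⟩
  have hsupp : ∀ (k : ℕ) (x : V d), (b k).normed volume x ≠ 0 → ‖x‖ ≤ min r (1 / (k + 1 : ℝ)) := by
    intro k x hx
    have h1 : x ∈ Function.support ((b k).normed volume) := hx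
    rw [ContDiffBump.support_normed_eq] at h1
    exact (mem_ball_zero_iff.1 h1).le
  refine ⟨fun k => ((b k).hasCompactSupport_normed (μ := volume)).toSchwartzMap
    (b k).contDiff_normed, ?_, ?_, ?_, ?_⟩
  · intro k x
    exact (b k).nonneg_normed x
  · intro k
    exact (b k).integral_normed
  · intro k x hx
    exact (hsupp k x hx).trans (min_le_right _ _)
  · intro k x hx
    exact (hsupp k x hx).trans (min_le_left _ _)

theorem exists_sep {d n : ℕ} (x : Fin n → V d) (hx : x ∉ Diag d n) :
    ∃ δ : ℝ, 0 < δ ∧ ∀ i j, i ≠ j → δ ≤ ‖x i - x j‖ := by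
  classical
  have hne : ∀ i j, i ≠ j → x i ≠ x j := by
    intro i j hij h
    exact hx ⟨i, j, hij, h⟩
  let T : Finset (Fin n × Fin n) := Finset.univ.filter fun p => p.1 ≠ p.2
  rcases T.eq_empty_or_nonempty with h | h
  · refine ⟨1, one_pos, fun i j hij => ?_⟩
    have : (i, j) ∈ T := Finset.mem_filter.2 ⟨Finset.mem_univ _, hij⟩
    rw [h] at this
    exact absurd this (Finset.notMem_empty _)
  · obtain ⟨p, hp, hmin⟩ := Finset.exists_min_image T (fun p => ‖x p.1 - x p.2‖) h
    refine ⟨‖x p.1 - x p.2‖, ?_, fun i j hij => ?_⟩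
    · rw [norm_pos_iff, sub_ne_zero]
      exact hne _ _ (Finset.mem_filter.1 hp).2
    · exact hmin (i, j) (Finset.mem_filter.2 ⟨Finset.mem_univ _, hij⟩)

theorem tsup_trans {d : ℕ} (ρ : S d) (r : ℝ) (hρ : ∀ x, ρ x ≠ 0 → ‖x‖ ≤ r) (y : V d) :
    tsupport (trans y ρ) ⊆ Metric.closedBall y r := by
  apply closure_minimal _ Metric.isClosed_closedBall
  intro z hz
  have h1 : ρ (z - y) ≠ 0 := hz
  rw [mem_closedBall_iff_norm]
  exact hρ _ h1

theorem int_trans {d : ℕ} (ρ : S d) (hρ0 : ∀ x, 0 ≤ ρ x) (hρ1 : ∫ x, ρ x = 1) (y : V d) :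
    ∫ x, |trans y ρ x| = 1 := by
  have h1 : ∀ x, |trans y ρ x| = ρ (x - y) := fun x => abs_of_nonneg (hρ0 _)
  simp only [h1]
  rw [integral_sub_right_eq_self (fun x => ρ x) y]
  exact hρ1

theorem pf_LOC (hMOL : T_MOL) (hMCV : T_MCV) (hDIR : T_DIR) (hREG : T_REG) : T_LOC := by
  classical
  intro d μ _ hM hT hLob hDif n x hx
  have hCON : T_CON := Pool.Agent.H38.DPC.CON
  obtain ⟨D, δ0, hδ0, hspan, hD⟩ := hDIR d n x hx
  obtain ⟨δ1, hδ1, hsep⟩ := exists_sep x hx
  obtain ⟨r, hr, hr0, hr1⟩ : ∃ r : ℝ, 0 < r ∧ 10 * r ≤ δ0 ∧ 10 * r ≤ δ1 :=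
    ⟨min δ0 δ1 / 10, by positivity, by have := min_le_left δ0 δ1; linarith,
      by have := min_le_right δ0 δ1; linarith⟩
  obtain ⟨ρ, hρ0, hρ1, hρs, hρr⟩ := approx_id d r hr
  let b : ∀ j, ContDiffBump (x j) := fun j => ⟨r, 3 * r / 2, hr, by linarith⟩
  set χ : (Fin n → V d) → ℝ := fun y => ∏ j, b j (y j) with hχdef
  set U : Set (Fin n → V d) := Metric.ball x (3 * r) with hU
  set s : ℕ → (Fin n → V d) → ℝ := fun k y => moment μ (fun j => trans (y j) (ρ k)) with hs
  choose K hK0 hK using fun m => hDif n m r hr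
  -- mollified moments
  have hmol : ∀ (k : ℕ) (f : Fin n → S d), ∃ h : Fin n → S d,
      (∀ j x, h j x = ∫ y, f j y * ρ k (x - y)) ∧ Continuous (s k) ∧
      moment μ h = ∫ y : Fin n → V d, (∏ j, f j (y j)) * s k y := by
    intro k f
    choose h hh using fun j => hCON d (f j) (ρ k)
    obtain ⟨h1, -, h2⟩ := hMOL d μ hM hT n (ρ k) f h hh
    exact ⟨h, hh, h1, h2⟩
  have hcont : ∀ k, Continuous (s k) := fun k => (hmol k (fun _ => ρ k)).choose_spec.2.1
  -- supports
  have hdisj : ∀ f : Fin n → S d, (∀ i, tsupport (f i) ⊆ Metric.closedBall (x i) (3 * r / 2)) →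
      ∀ i j, i ≠ j → Disjoint (tsupport (f i)) (tsupport (f j)) := by
    intro f hf i j hij
    rw [Set.disjoint_left]
    intro z hz1 hz2
    have h1 := mem_closedBall_iff_norm.1 (hf i hz1)
    have h2 := mem_closedBall_iff_norm.1 (hf j hz2)
    have h3 := hsep i j hij
    have h4 : ‖x i - x j‖ ≤ ‖z - x i‖ + ‖z - x j‖ := by
      calc ‖x i - x j‖ = ‖(z - x j) - (z - x i)‖ := by congr 1; abel
        _ ≤ ‖z - x j‖ + ‖z - x i‖ := norm_sub_le _ _
        _ = _ := add_comm _ _
    linarith
  have hlim : ∀ f : Fin n → S d, (∀ i, tsupport (f i) ⊆ Metric.closedBall (x i) (3 * r / 2)) →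
      Tendsto (fun k => ∫ y : Fin n → V d, (∏ j, f j (y j)) * s k y) atTop (𝓝 (moment μ f)) := by
    intro f hf
    choose h hh hc hm using fun k => hmol k f
    have h1 := hMCV d μ hM hLob n f
      (fun i => (isCompact_closedBall (x i) (3 * r / 2)).of_isClosed_subset (isClosed_tsupport _)
        (hf i)) (hdisj f hf) ρ h hρ0 hρ1 hρs hh
    refine h1.congr fun k => ?_
    exact hm k
  -- the cut-off function
  have hχ : ContDiff ℝ ∞ χ := by
    rw [hχdef]
    apply contDiff_prod
    intro j _
    exact (b j).contDiff.comp (contDiff_apply ℝ (V d) j)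
  have hχ0 : ∀ y, χ y ≠ 0 → ∀ j, y j ∈ Metric.closedBall (x j) (3 * r / 2) := by
    intro y hy j
    have h1 : b j (y j) ≠ 0 := fun h0 => hy (Finset.prod_eq_zero (Finset.mem_univ j) h0)
    have h2 : y j ∈ Function.support (b j) := h1
    rw [ContDiffBump.support_eq] at h2
    exact Metric.ball_subset_closedBall h2
  have hχt : tsupport χ ⊆ Set.pi Set.univ fun j => Metric.closedBall (x j) (3 * r / 2) := by
    apply closure_minimal
    · intro y hy j _
      exact hχ0 y hy j
    · exact isClosed_set_pi fun j _ => Metric.isClosed_closedBall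
  have hχc : HasCompactSupport χ :=
    (isCompact_univ_pi fun j => isCompact_closedBall (x j) (3 * r / 2)).of_isClosed_subset
      (isClosed_tsupport _) hχt
  have hχU : tsupport χ ⊆ U := by
    intro y hy
    rw [hU, Metric.mem_ball, dist_pi_lt_iff (by positivity)]
    intro j
    have h1 := hχt hy j (Set.mem_univ j)
    have h2 : dist (y j) (x j) ≤ 3 * r / 2 := h1
    linarith
  -- the differences
  have hbd : ∀ k m : ℕ, ∀ v ∈ D, ∀ h : ℝ, 0 < h → h ≤ r / (2 * m + 2) → ∀ y ∈ U,
      (∀ i ≤ m, y + ((i : ℝ) * h) • v ∈ U) → |dm m h v (s k) y| ≤ K m * h ^ m := by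
    intro k m v hv h hh hhr y hy _
    obtain ⟨e, R, c, he, hv', hL, hR⟩ := hD v hv
    rw [hU, Metric.mem_ball, dist_pi_lt_iff (by positivity)] at hy
    have hyj : ∀ j, ‖y j - x j‖ < 3 * r := fun j => by rw [← dist_eq_norm]; exact hy j
    have hts : ∀ j, ∀ z ∈ tsupport (trans (y j) (ρ k)), ‖z - x j‖ ≤ 4 * r := by
      intro j z hz
      have h1 := mem_closedBall_iff_norm.1 (tsup_trans (ρ k) r (hρr k) (y j) hz)
      have h2 := hyj j
      calc ‖z - x j‖ = ‖(z - y j) + (y j - x j)‖ := by congr 1; abel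
        _ ≤ ‖z - y j‖ + ‖y j - x j‖ := norm_add_le _ _
        _ ≤ 4 * r := by linarith
    have hin : ∀ j, ∀ z ∈ tsupport (trans (y j) (ρ k)), |⟪e, z⟫_ℝ - ⟪e, x j⟫_ℝ| ≤ 4 * r := by
      intro j z hz
      rw [← inner_sub_right]
      calc |⟪e, z - x j⟫_ℝ| ≤ ‖e‖ * ‖z - x j‖ := abs_real_inner_le_norm _ _
        _ = ‖z - x j‖ := by rw [he, one_mul]
        _ ≤ 4 * r := hts j z hz
    have hmain := hK m e c R (fun j => trans (y j) (ρ k)) he
      ⟨fun i => (isCompact_closedBall (y i) r).of_isClosed_subset (isClosed_tsupport _)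
        (tsup_trans (ρ k) r (hρr k) (y i)), by
        intro i j hij a ha b' hb'
        have h1 := hts i a ha
        have h2 := hts j b' hb'
        have h3 := hsep i j hij
        have h4 : ‖x i - x j‖ ≤ ‖a - x i‖ + ‖a - b'‖ + ‖b' - x j‖ := by
          calc ‖x i - x j‖ = ‖-(a - x i) + (a - b') + (b' - x j)‖ := by congr 1; abel
            _ ≤ ‖-(a - x i) + (a - b')‖ + ‖b' - x j‖ := norm_add_le _ _
            _ ≤ ‖-(a - x i)‖ + ‖a - b'‖ + ‖b' - x j‖ := by gcongr; exact norm_add_le _ _
            _ = _ := by rw [norm_neg]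
        linarith⟩
      (by
        intro i hi z hz
        have h1 := (abs_le.1 (hin i z hz)).2
        have h2 := hL i hi
        linarith)
      (by
        intro i hi z hz
        have h1 := (abs_le.1 (hin i z hz)).1
        have h2 := hR i hi
        linarith) h hh (by
        have h1 : (m : ℝ) * h ≤ m * (r / (2 * m + 2)) := by gcongr
        have h2 : 2 * ((m : ℝ) * (r / (2 * m + 2))) ≤ r := by
          rw [show 2 * ((m : ℝ) * (r / (2 * m + 2))) = (2 * m * r) / (2 * m + 2) by ring,
            div_le_iff₀ (by positivity)]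
          nlinarith
        linarith)
    have e1 : ∏ i : Fin n, ∫ z, |trans (y i) (ρ k) z| = 1 := by
      apply Finset.prod_eq_one
      intro i _
      exact int_trans (ρ k) (hρ0 k) (hρ1 k) (y i)
    rw [e1, mul_one] at hmain
    have e2 : dm m h v (s k) y = ∑ i ∈ Finset.range (m + 1), (-1) ^ i * (m.choose i : ℝ) *
        moment μ (fun j => if j ∈ R then trans (((i : ℝ) * h) • e) (trans (y j) (ρ k))
          else trans (y j) (ρ k)) := by
      unfold dm
      apply Finset.sum_congr rfl
      intro i _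
      congr 1
      rw [hs]
      simp only
      congr 1
      funext j
      rw [hv']
      simp only [Pi.add_apply, Pi.smul_apply]
      by_cases hj : j ∈ R
      · rw [if_pos hj, if_pos hj]
        ext z
        change ρ k (z - (y j + ((i : ℝ) * h) • e)) = ρ k (z - ((i : ℝ) * h) • e - y j)
        congr 1
        abel
      · rw [if_neg hj, if_neg hj, smul_zero, add_zero]
    rw [e2]
    exact hmain
  -- the averages
  have havg : ∀ (z : Fin n → V d) (δ : ℝ), 0 < δ → ∃ g : (Fin n → V d) → ℝ, Continuous g ∧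
      (∀ y, 0 ≤ g y) ∧ ∫ y, g y = 1 ∧ (∀ y, g y ≠ 0 → ‖y - z‖ ≤ δ) ∧
      ∃ l : ℝ, Tendsto (fun k => ∫ y, χ y * s k y * g y) atTop (𝓝 l) := by
    intro z δ hδ
    let a : ∀ j, ContDiffBump (z j) := fun j => ⟨δ / 2, δ, by positivity, by linarith⟩
    have hFc : ∀ j, HasCompactSupport (fun y => b j y * (a j).normed volume y) := fun j =>
      (b j).hasCompactSupport.mul_right
    have hFs : ∀ j, ContDiff ℝ ∞ (fun y => b j y * (a j).normed volume y) := fun j =>
      (b j).contDiff.mul (a j).contDiff_normed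
    let F : Fin n → S d := fun j => (hFc j).toSchwartzMap (hFs j)
    have hFt : ∀ i, tsupport (F i) ⊆ Metric.closedBall (x i) (3 * r / 2) := by
      intro i
      apply closure_minimal _ Metric.isClosed_closedBall
      intro y hy
      have h1 : b i y * (a i).normed volume y ≠ 0 := hy
      have h2 : y ∈ Function.support (b i) := left_ne_zero_of_mul h1
      rw [ContDiffBump.support_eq] at h2
      exact Metric.ball_subset_closedBall h2
    refine ⟨fun y => ∏ j, (a j).normed volume (y j), ?_, ?_, ?_, ?_, moment μ F, ?_⟩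
    · exact continuous_finsetProd _ fun j _ => (a j).continuous_normed.comp (continuous_apply j)
    · intro y
      exact Finset.prod_nonneg fun j _ => (a j).nonneg_normed _
    · rw [integral_fintype_prod_volume_eq_prod (fun j => (a j).normed volume)]
      exact Finset.prod_eq_one fun j _ => (a j).integral_normed
    · intro y hy
      rw [pi_norm_le_iff_of_nonneg hδ.le]
      intro j
      have h1 : (a j).normed volume (y j) ≠ 0 := fun h0 =>
        hy (Finset.prod_eq_zero (Finset.mem_univ j) h0)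
      have h2 : y j ∈ Function.support ((a j).normed volume) := h1
      rw [ContDiffBump.support_normed_eq] at h2
      exact (mem_ball_iff_norm.1 h2).le
    · refine (hlim F hFt).congr fun k => ?_
      apply integral_congr_ae
      filter_upwards with y
      have e1 : ∏ j, F j (y j) = χ y * ∏ j, (a j).normed volume (y j) := by
        rw [hχdef, ← Finset.prod_mul_distrib]
        rfl
      rw [e1]
      ring
  obtain ⟨u, B, hu, hB, hulim⟩ := hREG (Fin n → V d) volume χ U D K (fun m => r / (2 * m + 2)) s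
    hχ hχc Metric.isOpen_ball hχU hspan (fun m => by positivity)
    (fun k => (hcont k).continuousOn) hbd havg
  refine ⟨r, u, hr, hu, ?_⟩
  intro f hf
  have hf' : ∀ i, tsupport (f i) ⊆ Metric.closedBall (x i) (3 * r / 2) := fun i =>
    (hf i).trans ((Metric.ball_subset_ball (by linarith)).trans Metric.ball_subset_closedBall)
  have h1 := hlim f hf'
  have hprod : Integrable (fun y : Fin n → V d => ∏ j, f j (y j)) :=
    Integrable.fintype_prod (f := fun j => f j) fun j => (f j).integrable
  have e1 : ∀ k (y : Fin n → V d), (∏ j, f j (y j)) * s k y =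
      (∏ j, f j (y j)) * (χ y * s k y) := by
    intro k y
    by_cases h0 : ∏ j, f j (y j) = 0
    · rw [h0, zero_mul, zero_mul]
    · have h2 : χ y = 1 := by
        rw [hχdef]
        apply Finset.prod_eq_one
        intro j _
        apply ContDiffBump.one_of_mem_closedBall
        have h3 : f j (y j) ≠ 0 := fun h => h0 (Finset.prod_eq_zero (Finset.mem_univ j) h)
        exact Metric.ball_subset_closedBall (hf j (subset_tsupport _ h3))
      rw [h2, one_mul]
  have h2 : Tendsto (fun k => ∫ y : Fin n → V d, (∏ j, f j (y j)) * (χ y * s k y)) atTop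
      (𝓝 (∫ y : Fin n → V d, (∏ j, f j (y j)) * u y)) := by
    apply tendsto_integral_of_dominated_convergence (fun y => ‖∏ j, f j (y j)‖ * B)
    · intro k
      apply Continuous.aestronglyMeasurable
      apply Continuous.mul
      · exact continuous_finsetProd _ fun j _ => (f j).continuous.comp (continuous_apply j)
      · exact hχ.continuous.mul (hcont k)
    · exact hprod.norm.mul_const B
    · intro k
      filter_upwards with y
      rw [norm_mul]
      gcongr
      exact hB k y
    · filter_upwards with y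
      exact (hulim y).const_mul _
  have h3 := tendsto_nhds_unique (h1.congr fun k => integral_congr_ae
    (Eventually.of_forall fun y => e1 k y)) h2
  rw [h3]
  apply integral_congr_ae
  filter_upwards with y
  ring

end

end Pool.Agent.H70.LD
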